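import Pool.Agent.LCSVar.Final

set_option autoImplicit false

namespace Pool.Agent.Results.MP_bec1e1_pr.FiniteCriterion

open Finset Filter Topology Pool.Agent.LCSVar

/-- Expected length of a longest common subsequence of two independent uniform random words of
lengths `m` and `n` over an alphabet with `K` letters. -/
noncomputable def meanLCS (K m n : ℕ) : ℝ :=
  (∑ x : Fin m → Fin K, ∑ y : Fin n → Fin K, (lcs (List.ofFn x) (List.ofFn y) : ℝ))
    / ((K : ℝ) ^ m * (K : ℝ) ^ n)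

/-- Expected length of a longest common subsequence of a random word of length `R` with law `Q`
and an independent uniform random word of length `b`. -/
noncomputable def meanLCSWith {K R : ℕ} (Q : (Fin R → Fin K) → ℝ) (b : ℕ) : ℝ :=
  ∑ z : Fin R → Fin K, Q z *
    ((∑ y : Fin b → Fin K, (lcs (List.ofFn z) (List.ofFn y) : ℝ)) / (K : ℝ) ^ b)

theorem meanLCS_eq (K m n : ℕ) : meanLCS K m n = mu K m n := by
  unfold meanLCS mu
  rw [avg_avg_eq_sum, Fintype.sum_prod_type]
  rfl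

theorem result (k : ℕ) (γ : ℝ)
    (hγ : Tendsto (fun n : ℕ => meanLCS (k + 2) n n / n) atTop (𝓝 γ))
    (ε : ℝ) (hε : 0 < ε) (hε1 : ε ≤ 1) (R : ℕ)
    (hR : 1024 / ε ^ 4 * Real.log (1 + 1024 / ε ^ 4) ≤ R)
    (Q : (Fin R → Fin (k + 2)) → ℝ) (hQ0 : ∀ z, 0 ≤ Q z) (hQ1 : ∑ z, Q z = 1)
    (H : ∀ b : ℕ, (γ - ε) * (R + b) ≤ 2 * meanLCS (k + 2) R b →
      (γ + ε) * (R + b) ≤ 2 * meanLCSWith Q b) :
    Asymptotics.IsTheta Filter.atTop
      (fun n : ℕ =>
        ProbabilityTheory.variance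
          (fun p : (Fin n → Fin (k + 2)) × (Fin n → Fin (k + 2)) =>
            (((sSup {m : ℕ | ∃ l : List (Fin (k + 2)), l.length = m ∧
                l.Sublist (List.ofFn p.1) ∧ l.Sublist (List.ofFn p.2)}) : ℕ) : ℝ))
          (PMF.uniformOfFintype
            ((Fin n → Fin (k + 2)) × (Fin n → Fin (k + 2)))).toMeasure)
      (fun n : ℕ => (n : ℝ)) := by
  have hK : 0 < k + 2 := by omega
  simp_rw [variance_eq_Vr]
  have hε4 : (0 : ℝ) < ε ^ 4 := by positivity
  have h1024 : (1024 : ℝ) / ε ^ 4 = 1 / (ε ^ 4 / 1024) := by field_simp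
  have hR' : Real.log (1 + 1 / (ε ^ 4 / 1024)) / (ε ^ 4 / 1024) ≤ R := by
    rw [← h1024]
    refine le_trans (le_of_eq ?_) hR
    field_simp
  have hlog : 0 < Real.log (1 + 1024 / ε ^ 4) := Real.log_pos (by
    have : 0 < 1024 / ε ^ 4 := by positivity
    linarith)
  have hR0 : 0 < R := by
    have h1 : 0 < 1024 / ε ^ 4 * Real.log (1 + 1024 / ε ^ 4) := by positivity
    have h2 : (0 : ℝ) < R := lt_of_lt_of_le h1 hR
    exact_mod_cast h2
  have hq1 : avg (k + 2) R (densityOf Q) = 1 := by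
    have := avg_densityOf hK Q (fun _ => 1)
    simp only [mul_one] at this
    rw [← hQ1, ← this]
  have hγ' : Tendsto (fun n : ℕ => mu (k + 2) n n / n) atTop (𝓝 γ) := by
    refine hγ.congr (fun n => ?_)
    rw [meanLCS_eq]
  have hLQ : ∀ b : ℕ, avg (k + 2) b (fun w => LQ (k + 2) R (densityOf Q) w)
      = meanLCSWith Q b := by
    intro b
    unfold LQ
    rw [avg_comm]
    simp_rw [avg_const_mul]
    rw [avg_densityOf hK Q (fun z => avg (k + 2) b (fun w => lcsR z w))]
    unfold meanLCSWith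
    apply Finset.sum_congr rfl
    intro z _
    rw [avg_eq_sum]
    rfl
  obtain ⟨c, hc, hev⟩ := Vr_linear hK R hR0 (densityOf Q) (densityOf_nonneg Q hQ0) hq1 γ ε hγ'
    hε hε1 hR' (fun b hb => by
      rw [hLQ]
      exact H b (by rw [meanLCS_eq]; exact hb))
  refine ⟨Vr_isBigO hK, ?_⟩
  apply Asymptotics.IsBigO.of_bound (1 / c)
  filter_upwards [hev] with n hn
  have h0 : 0 ≤ Vr (k + 2) n :=
    avg_nonneg _ (fun _ _ => avg_nonneg _ (fun _ _ => sq_nonneg _))
  rw [Real.norm_eq_abs, Real.norm_eq_abs, abs_of_nonneg h0, abs_of_nonneg (Nat.cast_nonneg n)]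
  rw [div_mul_eq_mul_div, one_mul, le_div_iff₀ hc]
  linarith

end Pool.Agent.Results.MP_bec1e1_pr.FiniteCriterion
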