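import Pool.Agent.LCSVar.C.Fin
import Pool.Agent.Run7.h480.LCS.Uplo
import Pool.Agent.Run7.h480.LCS.Hyp

set_option autoImplicit false

namespace Pool.Agent.Results.MP_bec1e1_pr.LargeAlphabets

open Finset Filter Topology Pool.Agent.LCSVar

/-- For every sufficiently large alphabet the variance of the length of a longest common
subsequence of two independent uniform random words of length `n` is of order exactly `n`. -/
theorem result : ∃ k0 : ℕ, ∀ k : ℕ, k0 ≤ k →
    Asymptotics.IsTheta Filter.atTop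
      (fun n : ℕ =>
        ProbabilityTheory.variance
          (fun p : (Fin n → Fin (k + 2)) × (Fin n → Fin (k + 2)) =>
            (((sSup {m : ℕ | ∃ l : List (Fin (k + 2)), l.length = m ∧
                l.Sublist (List.ofFn p.1) ∧ l.Sublist (List.ofFn p.2)}) : ℕ) : ℝ))
          (PMF.uniformOfFintype
            ((Fin n → Fin (k + 2)) × (Fin n → Fin (k + 2)))).toMeasure)
      (fun n : ℕ => (n : ℝ)) := by
  obtain ⟨K0, hK0⟩ := var_large Pool.Agent.Run7.h480.LCS.UP Pool.Agent.Run7.h480.LCS.LO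
    Pool.Agent.Run7.h480.LCS.HYPU Pool.Agent.Run7.h480.LCS.HYPL
  refine ⟨K0, ?_⟩
  intro k hk
  obtain ⟨c, hc, hev⟩ := hK0 (k + 2) (by omega)
  have hK : 0 < k + 2 := by omega
  simp_rw [variance_eq_Vr]
  refine ⟨Vr_isBigO hK, ?_⟩
  apply Asymptotics.IsBigO.of_bound (1 / c)
  filter_upwards [hev] with n hn
  have h0 : 0 ≤ Vr (k + 2) n :=
    avg_nonneg _ (fun _ _ => avg_nonneg _ (fun _ _ => sq_nonneg _))
  rw [Real.norm_eq_abs, Real.norm_eq_abs, abs_of_nonneg h0, abs_of_nonneg (Nat.cast_nonneg n)]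
  rw [div_mul_eq_mul_div, one_mul, le_div_iff₀ hc]
  linarith

end Pool.Agent.Results.MP_bec1e1_pr.LargeAlphabets
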